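import Pool.Agent.K1H76.OM.Num

/-!
# Project OM (helper76), piece EM: Euler-Maclaurin for zeta with a third order remainder
-/

set_option autoImplicit false

namespace Pool.Agent.K1H65.OM

open Finset Filter Topology Pool.Agent.K1H76.OM

/-- the kernel -/
theorem kernel (t : ℝ) (h0 : 0 ≤ t) (h1 : t ≤ 1) :
    |t * (t - 1) * (2 * t - 1) / 12| ≤ 1 / 120 := by
  have key : ∀ u : ℝ, 0 ≤ u → 0 ≤ u ^ 3 - u / 4 + 1 / 20 := by
    intro u hu
    nlinarith [mul_nonneg (sq_nonneg (u - 29 / 100)) (by linarith : (0 : ℝ) ≤ u + 58 / 100)]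
  have hP : t * (t - 1) * (2 * t - 1) / 12 = ((t - 1 / 2) ^ 3 - (t - 1 / 2) / 4) / 6 := by ring
  rw [hP, abs_le]
  rcases le_total 0 (t - 1 / 2) with h | h
  · have h2 := key _ h
    constructor
    · linarith
    · have : (t - 1 / 2) ^ 3 - (t - 1 / 2) / 4 ≤ 0 := by nlinarith [mul_nonneg h (by linarith : (0:ℝ) ≤ 1 - t), mul_nonneg h h0]
      linarith
  · have h2 := key (1 / 2 - t) (by linarith)
    have h3 : (t - 1 / 2) ^ 3 - (t - 1 / 2) / 4 = -((1 / 2 - t) ^ 3 - (1 / 2 - t) / 4) := by ring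
    constructor
    · have : 0 ≤ (t - 1 / 2) ^ 3 - (t - 1 / 2) / 4 := by
        rw [h3]
        nlinarith [mul_nonneg (by linarith : (0:ℝ) ≤ 1 / 2 - t) h0, mul_nonneg (mul_nonneg (by linarith : (0:ℝ) ≤ 1 / 2 - t) h0) (by linarith : (0:ℝ) ≤ 1 - t)]
      linarith
    · rw [h3]
      linarith

theorem hasDeriv_pow (c : ℂ) (x : ℝ) (hx : 0 < x) :
    HasDerivAt (fun y : ℝ => (y : ℂ) ^ c) (c * (x : ℂ) ^ (c - 1)) x := by
  have h : HasDerivAt (fun z : ℂ => z ^ c) (c * (x : ℂ) ^ (c - 1)) (x : ℂ) := by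
    have := (hasDerivAt_id (x : ℂ)).cpow_const (c := c) (Complex.ofReal_mem_slitPlane.mpr hx)
    simpa using this
  exact h.comp_ofReal

/-- the antiderivative -/
noncomputable def H (s : ℂ) (a x : ℝ) : ℂ :=
  (((x - a) * (x - a - 1) * (2 * (x - a) - 1) / 12 : ℝ) : ℂ) * (s * (s + 1) * (x : ℂ) ^ (-s - 2)) +
  (((6 * (x - a) ^ 2 - 6 * (x - a) + 1) / 12 : ℝ) : ℂ) * (s * (x : ℂ) ^ (-s - 1)) +
  (((x - a) - 1 / 2 : ℝ) : ℂ) * (x : ℂ) ^ (-s) + (x : ℂ) ^ (1 - s) / (s - 1)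

theorem H_deriv (s : ℂ) (hs : s ≠ 1) (a x : ℝ) (hx : 0 < x) :
    HasDerivAt (H s a) (-((((x - a) * (x - a - 1) * (2 * (x - a) - 1) / 12 : ℝ) : ℂ) *
      (s * (s + 1) * (s + 2) * (x : ℂ) ^ (-s - 3)))) x := by
  have hs' : s - 1 ≠ 0 := sub_ne_zero.mpr hs
  have hP : HasDerivAt (fun x : ℝ => (((x - a) * (x - a - 1) * (2 * (x - a) - 1) / 12 : ℝ) : ℂ))
      (((6 * (x - a) ^ 2 - 6 * (x - a) + 1) / 12 : ℝ) : ℂ) x := by
    apply HasDerivAt.ofReal_comp
    have h1 : HasDerivAt (fun x : ℝ => x - a) 1 x := (hasDerivAt_id x).sub_const a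
    have h2 : HasDerivAt (fun x : ℝ => x - a - 1) 1 x := h1.sub_const 1
    have h3 : HasDerivAt (fun x : ℝ => 2 * (x - a) - 1) (2 * 1) x := (h1.const_mul 2).sub_const 1
    exact (((h1.mul h2).mul h3).div_const 12).congr_deriv (by simp only [Pi.mul_apply]; ring)
  have hP1 : HasDerivAt (fun x : ℝ => (((6 * (x - a) ^ 2 - 6 * (x - a) + 1) / 12 : ℝ) : ℂ))
      (((x - a) - 1 / 2 : ℝ) : ℂ) x := by
    apply HasDerivAt.ofReal_comp
    have h1 : HasDerivAt (fun x : ℝ => x - a) 1 x := (hasDerivAt_id x).sub_const a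
    have h2 := (((h1.pow 2).const_mul 6).sub (h1.const_mul 6)).add_const 1
    exact (h2.div_const 12).congr_deriv (by ring)
  have hP2 : HasDerivAt (fun x : ℝ => (((x - a) - 1 / 2 : ℝ) : ℂ)) ((1 : ℝ) : ℂ) x := by
    apply HasDerivAt.ofReal_comp
    exact ((hasDerivAt_id x).sub_const a).sub_const (1 / 2)
  have hf2 := (hasDeriv_pow (-s - 2) x hx).const_mul (s * (s + 1))
  have hf1 := (hasDeriv_pow (-s - 1) x hx).const_mul s
  have hf0 := hasDeriv_pow (-s) x hx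
  have hg := (hasDeriv_pow (1 - s) x hx).div_const (s - 1)
  have h := (((hP.mul hf2).add (hP1.mul hf1)).add (hP2.mul hf0)).add hg
  refine h.congr_deriv ?_
  have e3 : -s - 2 - 1 = -s - 3 := by ring
  have e2 : -s - 1 - 1 = -s - 2 := by ring
  have e0 : 1 - s - 1 = -s := by ring
  rw [e3, e2, e0]
  push_cast
  field_simp
  ring

/-- the partial sums with corrections -/
noncomputable def F (s : ℂ) (N : ℕ) : ℂ :=
  ∑ n ∈ Icc 1 N, (n : ℂ) ^ (-s) + (N : ℂ) ^ (1 - s) / (s - 1)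
    - (N : ℂ) ^ (-s) / 2 + s * (N : ℂ) ^ (-s - 1) / 12

theorem F_succ (s : ℂ) (N : ℕ) : F s (N + 1) - F s N = H s N (N + 1) - H s N N := by
  unfold F H
  rw [Finset.sum_Icc_succ_top (by omega : 1 ≤ N + 1)]
  push_cast
  have h1 : (N : ℂ) + 1 - N = 1 := by ring
  rw [h1, sub_self]
  ring

theorem step (s : ℂ) (hs : s ≠ 1) (hre : 0 < s.re) (N : ℕ) (hN : 1 ≤ N) :
    ‖F s (N + 1) - F s N‖ ≤ ‖s‖ * ‖s + 1‖ * ‖s + 2‖ / (120 * (s.re + 2)) *
      ((N : ℝ) ^ (-s.re - 2) - ((N : ℝ) + 1) ^ (-s.re - 2)) := by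
  set K := ‖s‖ * ‖s + 1‖ * ‖s + 2‖ with hK
  have hN0 : (0 : ℝ) < N := by exact_mod_cast hN
  have hr : 0 < s.re + 2 := by linarith
  rw [F_succ]
  have hpos : ∀ x ∈ Set.Icc (N : ℝ) (N + 1), 0 < x := fun x hx => lt_of_lt_of_le hN0 hx.1
  have hB : ∀ x : ℝ, 0 < x → HasDerivAt
      (fun x : ℝ => K / (120 * (s.re + 2)) * ((N : ℝ) ^ (-s.re - 2) - x ^ (-s.re - 2)))
      (K / 120 * x ^ (-s.re - 3)) x := by
    intro x hx
    have h1 := (Real.hasDerivAt_rpow_const (p := -s.re - 2) (Or.inl hx.ne'))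
    have h2 := (h1.const_sub ((N : ℝ) ^ (-s.re - 2))).const_mul (K / (120 * (s.re + 2)))
    refine h2.congr_deriv ?_
    have e : -s.re - 2 - 1 = -s.re - 3 := by ring
    rw [e]
    field_simp
    ring
  have key := image_norm_le_of_norm_deriv_right_le_deriv_boundary'
    (f := fun x => H s N x - H s N N) (a := (N : ℝ)) (b := (N : ℝ) + 1)
    (f' := fun x => -((((x - N) * (x - N - 1) * (2 * (x - N) - 1) / 12 : ℝ) : ℂ) *
      (s * (s + 1) * (s + 2) * (x : ℂ) ^ (-s - 3))))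
    (B := fun x : ℝ => K / (120 * (s.re + 2)) * ((N : ℝ) ^ (-s.re - 2) - x ^ (-s.re - 2)))
    (B' := fun x => K / 120 * x ^ (-s.re - 3))
    (fun x hx => ((H_deriv s hs N x (hpos x hx)).sub_const _).continuousAt.continuousWithinAt)
    (fun x hx => ((H_deriv s hs N x (hpos x ⟨hx.1, hx.2.le⟩)).sub_const _).hasDerivWithinAt)
    (by simp)
    (fun x hx => (hB x (hpos x hx)).continuousAt.continuousWithinAt)
    (fun x hx => (hB x (hpos x ⟨hx.1, hx.2.le⟩)).hasDerivWithinAt)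
    (by
      intro x hx
      have hx0 := hpos x ⟨hx.1, hx.2.le⟩
      have h1 := kernel (x - N) (by linarith [hx.1]) (by linarith [hx.2])
      rw [norm_neg, norm_mul, norm_mul, norm_mul, norm_mul, Complex.norm_real,
        Complex.norm_cpow_eq_rpow_re_of_pos hx0, Real.norm_eq_abs]
      have e : (-s - 3).re = -s.re - 3 := by simp
      rw [e]
      have hx3 : 0 ≤ x ^ (-s.re - 3) := Real.rpow_nonneg hx0.le _
      calc |(x - N) * (x - N - 1) * (2 * (x - N) - 1) / 12| * (‖s‖ * ‖s + 1‖ * ‖s + 2‖ *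
            x ^ (-s.re - 3)) ≤ 1 / 120 * (‖s‖ * ‖s + 1‖ * ‖s + 2‖ * x ^ (-s.re - 3)) :=
            mul_le_mul_of_nonneg_right h1 (by positivity)
        _ = K / 120 * x ^ (-s.re - 3) := by rw [hK]; ring)
  exact key (Set.right_mem_Icc.mpr (by linarith))

theorem tele (s : ℂ) (hs : s ≠ 1) (hre : 0 < s.re) (N : ℕ) (hN : 1 ≤ N) (M : ℕ) (hM : N ≤ M) :
    ‖F s M - F s N‖ ≤ ‖s‖ * ‖s + 1‖ * ‖s + 2‖ / (120 * (s.re + 2)) *
      ((N : ℝ) ^ (-s.re - 2) - (M : ℝ) ^ (-s.re - 2)) := by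
  induction M, hM using Nat.le_induction with
  | base => simp
  | succ M hM ih =>
    have h1 := step s hs hre M (by omega)
    have h2 : F s (M + 1) - F s N = (F s (M + 1) - F s M) + (F s M - F s N) := by ring
    rw [h2]
    refine (norm_add_le _ _).trans ?_
    push_cast
    linarith [h1, ih]

theorem tele' (s : ℂ) (hs : s ≠ 1) (hre : 0 < s.re) (N : ℕ) (hN : 1 ≤ N) (M : ℕ) (hM : N ≤ M) :
    ‖F s M - F s N‖ ≤ ‖s‖ * ‖s + 1‖ * ‖s + 2‖ / (120 * (s.re + 2) * (N : ℝ) ^ (s.re + 2)) := by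
  have hN0 : (0 : ℝ) < N := by exact_mod_cast hN
  have hr : 0 < s.re + 2 := by linarith
  refine (tele s hs hre N hN M hM).trans ?_
  have h1 : (0 : ℝ) ≤ (M : ℝ) ^ (-s.re - 2) := Real.rpow_nonneg (Nat.cast_nonneg M) _
  have h2 : (N : ℝ) ^ (-s.re - 2) = ((N : ℝ) ^ (s.re + 2))⁻¹ := by
    rw [← Real.rpow_neg hN0.le]
    congr 1
    ring
  have h3 : ‖s‖ * ‖s + 1‖ * ‖s + 2‖ / (120 * (s.re + 2) * (N : ℝ) ^ (s.re + 2)) =
      ‖s‖ * ‖s + 1‖ * ‖s + 2‖ / (120 * (s.re + 2)) * ((N : ℝ) ^ (s.re + 2))⁻¹ := by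
    rw [← div_eq_mul_inv, div_div]
  rw [h3, ← h2]
  refine mul_le_mul_of_nonneg_left (by linarith) (by positivity)

/-- convergence for `1 < re s` -/
theorem F_tendsto (s : ℂ) (hs : 1 < s.re) : Tendsto (F s) atTop (𝓝 (riemannZeta s)) := by
  have hpow : ∀ c : ℂ, c.re < 0 → Tendsto (fun N : ℕ => (N : ℂ) ^ c) atTop (𝓝 0) := by
    intro c hc
    rw [tendsto_zero_iff_norm_tendsto_zero]
    have h1 : Tendsto (fun N : ℕ => (N : ℝ) ^ c.re) atTop (𝓝 0) := by
      have := (tendsto_rpow_neg_atTop (y := -c.re) (by linarith)).comp tendsto_natCast_atTop_atTop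
      simpa [Function.comp_def] using this
    refine h1.congr' ?_
    filter_upwards [eventually_ge_atTop 1] with N hN
    rw [Complex.norm_natCast_cpow_of_pos (by omega)]
  have h1 : Tendsto (fun N : ℕ => ∑ n ∈ Icc 1 N, (n : ℂ) ^ (-s)) atTop (𝓝 (riemannZeta s)) := by
    have h2 : Summable (fun n : ℕ => 1 / (n : ℂ) ^ s) := Complex.summable_one_div_nat_cpow.mpr hs
    have h3 : HasSum (fun n : ℕ => 1 / (n : ℂ) ^ s) (riemannZeta s) := by
      rw [zeta_eq_tsum_one_div_nat_cpow hs]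
      exact h2.hasSum
    have h4 := h3.tendsto_sum_nat.comp (tendsto_add_atTop_nat 1)
    refine h4.congr fun N => ?_
    have h5 : range (N + 1) = insert 0 (Icc 1 N) := by
      ext k
      simp
      omega
    simp only [Function.comp_apply]
    rw [h5, Finset.sum_insert (by simp)]
    have h6 : (1 : ℂ) / ((0 : ℕ) : ℂ) ^ s = 0 := by
      have hs0 : s ≠ 0 := by
        rintro rfl
        simp at hs
        linarith
      simp [Complex.zero_cpow hs0]
    rw [h6, zero_add]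
    exact Finset.sum_congr rfl fun n _ => by rw [Complex.cpow_neg, one_div]
  have h2 := hpow (1 - s) (by simp; linarith)
  have h3 := hpow (-s) (by simp; linarith)
  have h4 := hpow (-s - 1) (by simp; linarith)
  have h5 := ((h1.add (h2.div_const (s - 1))).sub (h3.div_const 2)).add ((h4.const_mul s).div_const 12)
  simp only [zero_div, add_zero, mul_zero, sub_zero] at h5
  exact h5

theorem em_gt (s : ℂ) (hs : 1 < s.re) (N : ℕ) (hN : 1 ≤ N) :
    ‖riemannZeta s - F s N‖ ≤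
      ‖s‖ * ‖s + 1‖ * ‖s + 2‖ / (120 * (s.re + 2) * (N : ℝ) ^ (s.re + 2)) := by
  have hs1 : s ≠ 1 := by
    rintro rfl
    simp at hs
  refine le_of_tendsto ((F_tendsto s hs).sub_const (F s N)).norm ?_
  filter_upwards [eventually_ge_atTop N] with M hM
  exact tele' s hs1 (by linarith) N hN M hM

theorem t_EM : S_EM := by
  intro s hs hs1 N hN
  have hN0 : (0 : ℝ) < N := by exact_mod_cast hN
  have hNc : (N : ℂ) ≠ 0 := by
    have : N ≠ 0 := by omega
    exact_mod_cast this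
  have hne : (𝓝[{z : ℂ | 1 < z.re}] s).NeBot := by
    rw [← mem_closure_iff_nhdsWithin_neBot, Complex.closure_setOfPred_lt_re]
    exact hs
  have hr : s.re + 2 ≠ 0 := by linarith
  have hF : ContinuousAt (fun z : ℂ => F z N) s := by
    unfold F
    have hc : ∀ g : ℂ → ℂ, ContinuousAt g s → ∀ n : ℕ, 1 ≤ n →
        ContinuousAt (fun z => (n : ℂ) ^ (g z)) s := by
      intro g hg n hn
      have : (n : ℂ) ≠ 0 := by
        have : n ≠ 0 := by omega
        exact_mod_cast this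
      exact hg.const_cpow (Or.inl this)
    refine ((ContinuousAt.add ?_ ?_).sub ?_).add ?_
    · refine tendsto_finsetSum _ fun n hn => ?_
      exact hc (fun z => -z) continuousAt_id.neg n (Finset.mem_Icc.mp hn).1
    · refine ContinuousAt.div (hc (fun z => 1 - z) (continuousAt_const.sub continuousAt_id) N hN)
        (continuousAt_id.sub continuousAt_const) (sub_ne_zero.mpr hs1)
    · exact (hc (fun z => -z) continuousAt_id.neg N hN).div_const 2
    · exact ContinuousAt.div_const (continuousAt_id.mul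
        (hc (fun z => -z - 1) (continuousAt_id.neg.sub continuousAt_const) N hN)) 12
  have hl : ContinuousAt (fun z : ℂ => ‖riemannZeta z - F z N‖) s :=
    ((differentiableAt_riemannZeta hs1).continuousAt.sub hF).norm
  have hR : ContinuousAt (fun z : ℂ =>
      ‖z‖ * ‖z + 1‖ * ‖z + 2‖ / (120 * (z.re + 2) * (N : ℝ) ^ (z.re + 2))) s := by
    have hre : ContinuousAt (fun z : ℂ => z.re + 2) s := by fun_prop
    have hrp : ContinuousAt (fun z : ℂ => (N : ℝ) ^ (z.re + 2)) s :=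
      ContinuousAt.comp (g := fun y : ℝ => (N : ℝ) ^ y) (Real.continuousAt_const_rpow hN0.ne') hre
    refine ContinuousAt.div (by fun_prop) ((continuousAt_const.mul hre).mul hrp) ?_
    exact mul_ne_zero (mul_ne_zero (by norm_num) hr) (Real.rpow_pos_of_pos hN0 _).ne'
  have hl' : Tendsto (fun z : ℂ => ‖riemannZeta z - F z N‖) (𝓝[{z : ℂ | 1 < z.re}] s)
      (𝓝 ‖riemannZeta s - F s N‖) := hl.mono_left nhdsWithin_le_nhds
  have hR' : Tendsto (fun z : ℂ =>
      ‖z‖ * ‖z + 1‖ * ‖z + 2‖ / (120 * (z.re + 2) * (N : ℝ) ^ (z.re + 2)))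
      (𝓝[{z : ℂ | 1 < z.re}] s)
      (𝓝 (‖s‖ * ‖s + 1‖ * ‖s + 2‖ / (120 * (s.re + 2) * (N : ℝ) ^ (s.re + 2)))) :=
    hR.mono_left nhdsWithin_le_nhds
  refine le_of_tendsto_of_tendsto hl' hR' ?_
  filter_upwards [self_mem_nhdsWithin] with z hz
  exact em_gt z hz N hN

end Pool.Agent.K1H65.OM
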